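import Pool.Agent.U463.XS.Grp

/-!
# Characters of order `p` and the rank condition
-/

set_option autoImplicit false

namespace Pool.Agent.U463.XS

open Subgroup Module Pool.Agent.Q60.MU Pool.Agent.U463.MD
open scoped commutatorElement

variable {U : Type} [Group U] [TopologicalSpace U]

/-- The locally constant homomorphisms `U → ℤ/p` which vanish on the subgroups `I w`. -/
def chr (p : ℕ) {Ω : Type} (I : Ω → Subgroup U) : Set (U → ZMod p) :=
  {χ | (∀ x y, χ (x * y) = χ x + χ y) ∧ IsLocallyConstant χ ∧ ∀ w, ∀ x ∈ I w, χ x = 0}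

theorem card_dual (p : ℕ) [Fact p.Prime] (V : Type) [AddCommGroup V] [Module (ZMod p) V] [Finite V] :
    Nat.card (Dual (ZMod p) V) = Nat.card V := by
  have hf : Module.Finite (ZMod p) V := Module.Finite.of_finite
  rw [Module.natCard_eq_pow_finrank (K := ZMod p) (V := V),
    Module.natCard_eq_pow_finrank (K := ZMod p) (V := Dual (ZMod p) V), Subspace.dual_finrank_eq]

/-- The number of characters is bounded by the rank. -/
theorem encard_le [ContinuousMul U] (p : ℕ) [hp : Fact p.Prime] {Ω : Type} {I : Ω → Subgroup U} {C : ℕ}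
    (h : RankLe p I (⊤ : Subgroup U) C) : (chr p I).encard ≤ C := by
  classical
  by_contra hcon
  push Not at hcon
  obtain ⟨T, hTs, hTc⟩ : ∃ T : Finset (U → ZMod p), (T : Set (U → ZMod p)) ⊆ chr p I ∧ T.card = C + 1 := by
    have h1 : ((C + 1 : ℕ) : ℕ∞) ≤ (chr p I).encard := by
      push_cast
      exact Order.add_one_le_of_lt hcon
    obtain ⟨T, hT, hTe⟩ := Set.exists_subset_encard_eq h1
    have hfin : T.Finite := Set.finite_of_encard_eq_coe hTe
    refine ⟨hfin.toFinset, by rw [hfin.coe_toFinset]; exact hT, ?_⟩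
    rw [hfin.encard_eq_coe_toFinset_card] at hTe
    exact_mod_cast hTe
  let Φ : U →* Multiplicative (T → ZMod p) :=
    { toFun := fun u => Multiplicative.ofAdd fun χ => χ.1 u
      map_one' := by
        apply Multiplicative.toAdd.injective
        funext χ
        have h1 := (hTs χ.2).1 1 1
        rw [mul_one] at h1
        show χ.1 1 = 0
        exact left_eq_add.1 h1
      map_mul' := fun x y => by
        apply Multiplicative.toAdd.injective
        funext χ
        exact (hTs χ.2).1 x y }
  have hker : ∀ u, u ∈ Φ.ker ↔ ∀ χ : T, χ.1 u = 0 := by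
    intro u
    rw [MonoidHom.mem_ker]
    constructor
    · intro hu χ
      exact congrFun (congrArg Multiplicative.toAdd hu) χ
    · intro hu
      apply Multiplicative.toAdd.injective
      funext χ
      exact hu χ
  have hfinM : Finite (Multiplicative (T → ZMod p)) := by
    have : Finite (T → ZMod p) := inferInstance
    exact this
  have hidx : Φ.ker.index = Nat.card Φ.range := index_ker Φ
  have hidx0 : Φ.ker.index ≠ 0 := by
    rw [hidx]
    exact Nat.card_pos.ne'
  have hopen : IsOpen ((Φ.ker : Subgroup U) : Set U) := by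
    have h1 : ((Φ.ker : Subgroup U) : Set U) = ⋂ χ : T, {u | χ.1 u = 0} := by
      ext u
      rw [SetLike.mem_coe, hker, Set.mem_iInter]
      rfl
    rw [h1]
    exact isOpen_iInter_of_finite fun χ => (hTs χ.2).2.1.isOpen_fiber 0
  have hpow : ∀ (χ : T) (a : U) (n : ℕ), χ.1 (a ^ n) = n • χ.1 a := by
    intro χ a n
    induction n with
    | zero =>
      rw [pow_zero, zero_nsmul]
      have h1 := (hTs χ.2).1 1 1
      rw [mul_one] at h1
      exact left_eq_add.1 h1
    | succ n ih => rw [pow_succ, (hTs χ.2).1, ih, succ_nsmul]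
  have hC := h Φ.ker le_top hopen (by rwa [relIndex_top_right]) (by
    rintro x ((⟨a, -, rfl⟩ | ⟨a, -, b, -, rfl⟩) | ⟨-, w, hw⟩)
    · refine (hker _).2 fun χ => ?_
      rw [hpow, nsmul_eq_mul, CharP.cast_eq_zero, zero_mul]
    · show ⁅a, b⁆ ∈ Φ.ker
      rw [MonoidHom.mem_ker, map_commutatorElement, commutatorElement_eq_one_iff_mul_comm]
      exact mul_comm _ _
    · exact (hker _).2 fun χ => (hTs χ.2).2.2 w x hw)
  rw [relIndex_top_right, hidx] at hC
  -- the range as a vector space
  let R : AddSubgroup (T → ZMod p) := Φ.range.toAddSubgroup'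
  let V : Submodule (ZMod p) (T → ZMod p) := AddSubgroup.toZModSubmodule p R
  have hVmem : ∀ v : T → ZMod p, v ∈ V ↔ ∃ u, (fun χ : T => χ.1 u) = v := by
    intro v
    constructor
    · rintro ⟨u, hu⟩
      exact ⟨u, congrArg Multiplicative.toAdd hu⟩
    · rintro ⟨u, hu⟩
      exact ⟨u, congrArg Multiplicative.ofAdd hu⟩
  have hVcard : Nat.card V = Nat.card Φ.range := by
    refine Nat.card_congr (Equiv.subtypeEquiv Multiplicative.ofAdd fun v => ?_)
    rw [hVmem]
    constructor
    · rintro ⟨u, hu⟩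
      exact ⟨u, congrArg Multiplicative.ofAdd hu⟩
    · rintro ⟨u, hu⟩
      exact ⟨u, congrArg Multiplicative.toAdd hu⟩
  have hVfin : Finite V := inferInstance
  let J : T → Dual (ZMod p) V := fun χ => (LinearMap.proj χ).comp V.subtype
  have hJ : Function.Injective J := by
    intro χ χ' hχ
    apply Subtype.ext
    funext u
    exact LinearMap.congr_fun hχ ⟨fun χ : T => χ.1 u, (hVmem _).2 ⟨u, rfl⟩⟩
  have hDfin : Finite (Dual (ZMod p) V) := by
    have hf : Module.Finite (ZMod p) V := Module.Finite.of_finite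
    exact Module.finite_of_finite (ZMod p)
  have h5 := Nat.card_le_card_of_injective J hJ
  rw [card_dual, hVcard, Nat.card_eq_fintype_card, Fintype.card_coe, hTc] at h5
  omega

theorem exists_vec (p : ℕ) [hp : Fact p.Prime] {W : Subgroup U} (hN : W.Normal) (hWf : W.index ≠ 0)
    (hc : ∀ a b : U, ⁅a, b⁆ ∈ W) (hpw : ∀ a : U, a ^ p ∈ W) :
    ∃ (V : Type) (_ : AddCommGroup V) (_ : Module (ZMod p) V) (_ : Finite V) (mk : U → V),
      (∀ x y, mk (x * y) = mk x + mk y) ∧ Function.Surjective mk ∧ (∀ x, mk x = 0 ↔ x ∈ W) ∧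
      Nat.card V = W.index := by
  have hmk1 : ∀ x : U, (x : U ⧸ W) = 1 ↔ x ∈ W := fun x => QuotientGroup.eq_one_iff x
  have hcomm : ∀ x y : U ⧸ W, x * y = y * x := by
    intro x y
    obtain ⟨a, rfl⟩ := QuotientGroup.mk_surjective x
    obtain ⟨b, rfl⟩ := QuotientGroup.mk_surjective y
    rw [← commutatorElement_eq_one_iff_mul_comm]
    exact (hmk1 _).2 (hc a b)
  let cg : CommGroup (U ⧸ W) := { (inferInstance : Group (U ⧸ W)) with mul_comm := hcomm }
  let ag : AddCommGroup (Additive (U ⧸ W)) := @Additive.addCommGroup (U ⧸ W) cg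
  have hexp : ∀ x : Additive (U ⧸ W), p • x = 0 := by
    intro x
    obtain ⟨a, ha⟩ := QuotientGroup.mk_surjective (Additive.toMul x)
    apply Additive.toMul.injective
    show (Additive.toMul x) ^ p = 1
    rw [← ha]
    exact (hmk1 _).2 (hpw a)
  have hfi : W.FiniteIndex := ⟨hWf⟩
  have hfinQ : Finite (U ⧸ W) := inferInstance
  exact ⟨Additive (U ⧸ W), ag, AddCommGroup.zmodModule hexp, hfinQ,
    fun u => Additive.ofMul (u : U ⧸ W), fun x y => rfl, fun x => by
      obtain ⟨a, ha⟩ := QuotientGroup.mk_surjective (Additive.toMul x)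
      exact ⟨a, congrArg Additive.ofMul ha⟩, hmk1, rfl⟩

/-- The rank is bounded by the number of characters. -/
theorem rankLe_of_encard [ContinuousMul U] (p : ℕ) [hp : Fact p.Prime] {Ω : Type} {I : Ω → Subgroup U} {C : ℕ}
    (h : (chr p I).encard ≤ C) : RankLe p I (⊤ : Subgroup U) C := by
  classical
  intro W _ hWo hWf hg
  rw [relIndex_top_right] at hWf ⊢
  have hN : W.Normal := ⟨fun w hw u => by
    have h1 : ⁅u, w⁆ ∈ W := hg (Or.inl (Or.inr ⟨u, mem_top _, w, mem_top _, rfl⟩))
    have h2 : u * w * u⁻¹ = ⁅u, w⁆ * w := by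
      rw [commutatorElement_def]
      group
    rw [h2]
    exact W.mul_mem h1 hw⟩
  obtain ⟨V, i1, i2, i3, mk, hmul, hsurj, hker, hcard⟩ := exists_vec p hN hWf
    (fun a b => hg (Or.inl (Or.inr ⟨a, mem_top _, b, mem_top _, rfl⟩)))
    (fun a => hg (Or.inl (Or.inl ⟨a, mem_top _, rfl⟩)))
  have hDfin : Finite (Dual (ZMod p) V) := by
    have hf : Module.Finite (ZMod p) V := Module.Finite.of_finite
    exact Module.finite_of_finite (ZMod p)
  let J : Dual (ZMod p) V → (U → ZMod p) := fun f u => f (mk u)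
  have hJ : Function.Injective J := by
    intro f f' hf
    apply LinearMap.ext
    intro x
    obtain ⟨a, rfl⟩ := hsurj x
    exact congrFun hf a
  have hJm : ∀ f, J f ∈ chr p I := by
    intro f
    refine ⟨fun x y => ?_, ?_, fun w x hx => ?_⟩
    · show f (mk (x * y)) = f (mk x) + f (mk y)
      rw [hmul, map_add]
    · rw [IsLocallyConstant.iff_exists_open]
      intro x
      refine ⟨(fun y => x⁻¹ * y) ⁻¹' (W : Set U), hWo.preimage (continuous_const.mul continuous_id), ?_, ?_⟩
      · show x⁻¹ * x ∈ W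
        rw [inv_mul_cancel]
        exact W.one_mem
      · intro y hy
        have h1 : mk (x⁻¹ * y) = 0 := (hker _).2 hy
        have h2 : mk y = mk x := by
          have h3 := hmul x (x⁻¹ * y)
          rw [mul_inv_cancel_left, h1, add_zero] at h3
          exact h3
        show f (mk y) = f (mk x)
        rw [h2]
    · have h1 : mk x = 0 := (hker x).2 (hg (Or.inr ⟨mem_top _, w, hx⟩))
      show f (mk x) = 0
      rw [h1, map_zero]
  have h1 : (Set.range J).encard ≤ C := (Set.encard_le_encard (by
    rintro _ ⟨f, rfl⟩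
    exact hJm f)).trans h
  have h2 : (Set.range J).ncard = Nat.card V := by
    rw [← card_dual p V, ← Nat.card_range_of_injective hJ]
    rfl
  have h3 : (Set.range J).Finite := Set.finite_range J
  rw [← h3.cast_ncard_eq, h2, hcard] at h1
  exact_mod_cast h1

end Pool.Agent.U463.XS
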