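import Pool.Agent.U463.MD.Loc

/-!
# The characters of the groups `X_Σ`
-/

set_option autoImplicit false

namespace Pool.Agent.U463.XS

open IntermediateField Pool.Agent.Q60.MU Pool.Agent.U152.MU Pool.Agent.U463.MD
open scoped Pointwise

/-- The continuous homomorphisms from the absolute Galois group of `E` (a field of algebraic numbers, of finite
or infinite degree) to `ℤ/p` which vanish on the inertia groups of the places that do not lie above the primes in
`P`. They are the continuous homomorphisms `X → ℤ/p`, where `X` is the Galois group over `E` of the maximal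
abelian pro-`p` extension of `E` unramified outside the places above `P` and the real places. -/
def chars (p : ℕ) (P : Finset ℕ) (E : IntermediateField ℚ Qb) : Set (E.fixingSubgroup → ZMod p) :=
  {χ | (∀ x y, χ (x * y) = χ x + χ y) ∧ IsLocallyConstant χ ∧
    ∀ A, ¬ Above P A → ∀ x : E.fixingSubgroup, x.1 ∈ inertia A → χ x = 0}

/-- The prime `ℓ` has at most `t` places in the field `L`. -/
def Places (t ℓ : ℕ) (L : IntermediateField ℚ Qb) : Prop :=
  ∃ T : Finset (ValuationSubring Qb), T.card ≤ t ∧ ∀ A : ValuationSubring Qb, (ℓ : Qb) ∈ A.nonunits →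
    ∃ B ∈ T, ∃ σ ∈ L.fixingSubgroup, A = σ • B

/-- The prime `ℓ` is unramified in `N`. -/
def Unram (ℓ : ℕ) (N : IntermediateField ℚ Qb) : Prop :=
  ∀ A : ValuationSubring Qb, (ℓ : Qb) ∈ A.nonunits → inertia A ≤ N.fixingSubgroup

/-- The inequality for the field `F`, the set of fields `𝓔`, and the base field `L`. -/
def CharBound (p : ℕ) (P : Finset ℕ) (𝓔 : Set (IntermediateField ℚ Qb)) (F L : IntermediateField ℚ Qb)
    (B : ℕ) : Prop :=
  ∀ C : ℕ, 1 ≤ C → (∀ E ∈ 𝓔, (chars p P (E ⊔ L)).encard ≤ C) →
    (chars p P (F ⊔ L)).encard ≤ ((B * C ^ B : ℕ) : ℕ∞)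

/-- The field is contained in the field generated by the roots of unity of `p`-power order. -/
def IsCyc (p : ℕ) (L : IntermediateField ℚ Qb) : Prop := ∀ x ∈ L, ∃ n, x ∈ CY p n

/-- The inequality for all the subfields `L` of the field of all roots of unity of `p`-power order, with one
constant. -/
def CycBound (p : ℕ) (P : Finset ℕ) (𝓔 : Set (IntermediateField ℚ Qb)) (F : IntermediateField ℚ Qb) : Prop :=
  ∃ B, ∀ L : IntermediateField ℚ Qb, IsCyc p L → CharBound p P 𝓔 F L B

end Pool.Agent.U463.XS
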