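import Pool.Agent.U463.MD.Fac

/-!
# Places of the field of all roots of unity of `p`-power order
-/

set_option autoImplicit false

namespace Pool.Agent.U463.XS

open Subgroup IntermediateField Pool.Agent.Q60.MU Pool.Agent.U152.MU Pool.Agent.U463.MD
open scoped Pointwise

/-- Orbits of an intersection of closed subgroups. -/
theorem orbits_inter {G : Type} [Group G] [TopologicalSpace G] [CompactSpace G] {Ω : Type} [MulAction G Ω]
    (D : ℕ → Subgroup G) (hD : ∀ n, D (n + 1) ≤ D n) (hDc : ∀ n, IsClosed (D n : Set G))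
    (hcl : ∀ x y : Ω, IsClosed {g : G | x = g • y}) (A : Set Ω) (t : ℕ)
    (h : ∀ n, ∃ T : Finset Ω, T.card ≤ t ∧ ∀ x ∈ A, ∃ y ∈ T, ∃ g ∈ D n, x = g • y) :
    ∃ T : Finset Ω, T.card ≤ t ∧ ∀ x ∈ A, ∃ y ∈ T, ∃ g : G, (∀ n, g ∈ D n) ∧ x = g • y := by
  classical
  have hanti : Antitone D := antitone_nat_of_succ_le hD
  have hcomp : ∀ x y : Ω, (∀ n, ∃ g ∈ D n, x = g • y) → ∃ g : G, (∀ n, g ∈ D n) ∧ x = g • y := by
    intro x y hxy
    have h1 := IsCompact.nonempty_iInter_of_sequence_nonempty_isCompact_isClosed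
      (fun n => (D n : Set G) ∩ {g : G | x = g • y})
      (fun n g hg => ⟨hD n hg.1, hg.2⟩)
      (fun n => by
        obtain ⟨g, hg, h1⟩ := hxy n
        exact ⟨g, hg, h1⟩)
      (((hDc 0).inter (hcl x y)).isCompact)
      (fun n => (hDc n).inter (hcl x y))
    obtain ⟨g, hg⟩ := h1
    rw [Set.mem_iInter] at hg
    exact ⟨g, fun n => (hg n).1, (hg 0).2⟩
  let P : Finset Ω → Prop := fun T => (T : Set Ω) ⊆ A ∧
    ∀ x ∈ T, ∀ y ∈ T, (∃ g : G, (∀ n, g ∈ D n) ∧ x = g • y) → x = y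
  have hPt : ∀ T, P T → T.card ≤ t := by
    intro T hT
    by_contra hlt
    push Not at hlt
    have h1 : ∀ x y : Ω, ∃ n, (x ∈ T → y ∈ T → x ≠ y → ¬ ∃ g ∈ D n, x = g • y) := by
      intro x y
      by_contra hcon
      push Not at hcon
      obtain ⟨hx, hy, hne, -⟩ := hcon 0
      exact hne (hT.2 x hx y hy (hcomp x y fun n => (hcon n).2.2.2))
    choose N hN using h1
    let M := (T ×ˢ T).sup fun q => N q.1 q.2
    obtain ⟨T', hT', hc⟩ := h M
    choose! b hb g hg hbg using hc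
    obtain ⟨x, hx, y, hy, hne, hxy⟩ := Finset.exists_ne_map_eq_of_card_lt_of_maps_to
      (s := T) (t := T') (lt_of_le_of_lt hT' hlt) (f := b) (fun x hx => hb x (hT.1 hx))
    apply hN x y hx hy hne
    have hle : N x y ≤ M := Finset.le_sup (f := fun q : Ω × Ω => N q.1 q.2)
      (Finset.mem_product.2 (⟨hx, hy⟩ : (x, y).1 ∈ T ∧ (x, y).2 ∈ T))
    refine ⟨g x * (g y)⁻¹, hanti hle ((D M).mul_mem (hg x (hT.1 hx)) ((D M).inv_mem (hg y (hT.1 hy)))), ?_⟩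
    have h2 := hbg x (hT.1 hx)
    have h3 := hbg y (hT.1 hy)
    have h4 : (g y)⁻¹ • y = b y := inv_smul_eq_iff.2 h3
    rw [mul_smul, h4, ← hxy]
    exact h2
  -- a maximal set
  let S : Set ℕ := {k | ∃ T, P T ∧ T.card = k}
  have hne : S.Nonempty := ⟨0, ∅, ⟨by simp, by simp⟩, rfl⟩
  have hbd : BddAbove S := ⟨t, by
    rintro k ⟨T, hT, rfl⟩
    exact hPt T hT⟩
  obtain ⟨T, hT, hTk⟩ := Nat.sSup_mem hne hbd
  refine ⟨T, hPt T hT, fun x hx => ?_⟩
  by_contra hcon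
  push Not at hcon
  have hxT : x ∉ T := fun hxT => hcon x hxT 1 (fun n => (D n).one_mem) (one_smul _ _).symm
  have h1 : P (insert x T) := by
    refine ⟨?_, ?_⟩
    · intro y hy
      rw [Finset.mem_coe, Finset.mem_insert] at hy
      rcases hy with rfl | hy
      · exact hx
      · exact hT.1 hy
    · intro y hy z hz hyz
      rw [Finset.mem_insert] at hy hz
      obtain ⟨g, hg, hgy⟩ := hyz
      rcases hy with rfl | hy
      · rcases hz with rfl | hz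
        · rfl
        · exact absurd hgy (hcon z hz g hg)
      · rcases hz with rfl | hz
        · refine absurd ?_ (hcon y hy g⁻¹ fun n => (D n).inv_mem (hg n))
          rw [hgy, inv_smul_smul]
        · exact hT.2 y hy z hz ⟨g, hg, hgy⟩
  have h2 : (insert x T).card ≤ sSup S := le_csSup hbd ⟨_, h1, rfl⟩
  rw [Finset.card_insert_of_notMem hxT, hTk] at h2
  omega

theorem isOpen_fix (x y : Qb) : IsOpen {σ : Gal(Qb/ℚ) | σ x = y} := by
  rw [isOpen_iff_mem_nhds]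
  intro σ hσ
  have hfd : FiniteDimensional ℚ ℚ⟮x⟯ := adjoin.finiteDimensional
    ((AlgebraicClosure.isAlgebraic ℚ).isIntegral.isIntegral x)
  have h1 : IsOpen ((ℚ⟮x⟯).fixingSubgroup : Set Gal(Qb/ℚ)) := fixingSubgroup_isOpen _
  have h2 : IsOpen ((fun τ : Gal(Qb/ℚ) => σ⁻¹ * τ) ⁻¹' ((ℚ⟮x⟯).fixingSubgroup : Set Gal(Qb/ℚ))) :=
    h1.preimage (continuous_const.mul continuous_id)
  refine Filter.mem_of_superset (h2.mem_nhds ?_) ?_
  · show σ⁻¹ * σ ∈ (ℚ⟮x⟯).fixingSubgroup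
    rw [inv_mul_cancel]
    exact Subgroup.one_mem _
  · intro τ hτ
    have h3 : σ⁻¹ * τ ∈ (ℚ⟮x⟯).fixingSubgroup := hτ
    rw [IntermediateField.mem_fixingSubgroup_iff] at h3
    have h4 := h3 x (mem_adjoin_simple_self ℚ x)
    show τ x = y
    have h5 : σ ((σ⁻¹ * τ) x) = σ x := congrArg σ h4
    have h6 : σ ((σ⁻¹ * τ) x) = τ x := by
      rw [← AlgEquiv.mul_apply, mul_inv_cancel_left]
    rw [← h6, h5]
    exact hσ

theorem isClosed_smul (A B : ValuationSubring Qb) : IsClosed {σ : Gal(Qb/ℚ) | A = σ • B} := by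
  have h1 : {σ : Gal(Qb/ℚ) | A = σ • B} = ⋂ x : Qb, {σ : Gal(Qb/ℚ) | x ∈ A ↔ σ⁻¹ x ∈ B} := by
    ext σ
    rw [Set.mem_iInter]
    constructor
    · intro h x
      have h' : A = σ • B := h
      show x ∈ A ↔ σ⁻¹ x ∈ B
      rw [h', ValuationSubring.mem_pointwise_smul_iff_inv_smul_mem]
      rfl
    · intro h
      show A = σ • B
      ext x
      rw [ValuationSubring.mem_pointwise_smul_iff_inv_smul_mem]
      exact h x
  rw [h1]
  refine isClosed_iInter fun x => ?_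
  have h2 : ∀ Z : Set Qb, IsOpen {σ : Gal(Qb/ℚ) | σ⁻¹ x ∈ Z} := by
    intro Z
    have h3 : {σ : Gal(Qb/ℚ) | σ⁻¹ x ∈ Z} = ⋃ z ∈ Z, (fun σ => σ⁻¹) ⁻¹' {σ : Gal(Qb/ℚ) | σ x = z} := by
      ext σ
      simp only [Set.mem_setOf_eq, Set.mem_iUnion, Set.mem_preimage, exists_prop, exists_eq_right']
    rw [h3]
    exact isOpen_biUnion fun z _ => (isOpen_fix x z).preimage continuous_inv
  rw [← isOpen_compl_iff]
  by_cases hx : x ∈ A
  · have h4 : {σ : Gal(Qb/ℚ) | x ∈ A ↔ σ⁻¹ x ∈ B}ᶜ = {σ : Gal(Qb/ℚ) | σ⁻¹ x ∈ ((B : Set Qb))ᶜ} := by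
      ext σ
      simp only [hx, true_iff, Set.mem_compl_iff, Set.mem_setOf_eq, SetLike.mem_coe]
    rw [h4]
    exact h2 _
  · have h4 : {σ : Gal(Qb/ℚ) | x ∈ A ↔ σ⁻¹ x ∈ B}ᶜ = {σ : Gal(Qb/ℚ) | σ⁻¹ x ∈ (B : Set Qb)} := by
      ext σ
      simp only [hx, false_iff, Set.mem_compl_iff, Set.mem_setOf_eq, SetLike.mem_coe, not_not]
    rw [h4]
    exact h2 _

/-- The places of `ℚ(μ_{p^∞})` above `ℓ`. -/
theorem fin_cinf {p : ℕ} (hp : p.Prime) (ℓ : ℕ) (hℓ : ℓ.Prime) :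
    ∃ T : Finset (ValuationSubring Qb), ∀ A : ValuationSubring Qb, (ℓ : Qb) ∈ A.nonunits →
        ∃ B ∈ T, ∃ σ : Gal(Qb/ℚ), (∀ n, σ ∈ (CY p n).fixingSubgroup) ∧ A = σ • B := by
  obtain ⟨t, ht⟩ := fin_cyc hp ℓ hℓ
  obtain ⟨T, -, hT⟩ := orbits_inter (fun n => (CY p n).fixingSubgroup)
    (fun n => fixingSubgroup_le (CY_mono (Nat.le_succ n)))
    (fun n => by
      have hfd := cy_fd hp n
      exact IntermediateField.fixingSubgroup_isClosed _) isClosed_smul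
    {A : ValuationSubring Qb | (ℓ : Qb) ∈ A.nonunits} t ht
  exact ⟨T, hT⟩

end Pool.Agent.U463.XS
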