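import Pool.Agent.U463.XS.Chr
import Pool.Agent.U463.XS.Orb
import Pool.Agent.U463.XS.Defs

/-!
# The groups `X_Σ` of dominated fields
-/

set_option autoImplicit false

namespace Pool.Agent.U463.XS

open Subgroup Module IntermediateField Pool.Agent.Q60.MU Pool.Agent.U152.MU Pool.Agent.U463.MD Polynomial
open scoped Pointwise commutatorElement

/-- Transport of the rank condition along an injective homomorphism. -/
theorem RankLe_map' {𝔻 𝔻' : Type} [Group 𝔻] [TopologicalSpace 𝔻] [Group 𝔻'] [TopologicalSpace 𝔻'] {p : ℕ}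
    {Ω : Type} {I : Ω → Subgroup 𝔻} {I' : Ω → Subgroup 𝔻'} {U : Subgroup 𝔻} {C : ℕ} (h : RankLe p I U C)
    (c : 𝔻 →* 𝔻') (hc : Continuous c) (hcI : ∀ w, ∀ x ∈ I w, c x ∈ I' w)
    (hinj : Function.Injective c) : RankLe p I' (U.map c) C := by
  intro W hWK hWo hWf hg
  have hidx := relIndex_comap W c U
  rw [← hidx] at hWf ⊢
  refine h _ ?_ ?_ hWf ?_
  · intro x hx
    obtain ⟨y, hy, hyx⟩ := hWK hx
    rw [← hinj hyx]
    exact hy
  · exact hWo.preimage hc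
  · rintro y ((⟨a, ha, rfl⟩ | ⟨a, ha, b, hb, rfl⟩) | ⟨hx, w, hw⟩)
    · exact hg (Or.inl (Or.inl ⟨_, ⟨a, ha, rfl⟩, map_pow _ _ _⟩))
    · exact hg (Or.inl (Or.inr ⟨_, ⟨a, ha, rfl⟩, _, ⟨b, hb, rfl⟩, map_commutatorElement _ _ _⟩))
    · exact hg (Or.inr ⟨⟨y, hx, rfl⟩, w, hcI w y hw⟩)

theorem RankLe_of_map {𝔻 𝔻' : Type} [Group 𝔻] [TopologicalSpace 𝔻] [Group 𝔻'] [TopologicalSpace 𝔻'] {p : ℕ}
    {Ω : Type} {I : Ω → Subgroup 𝔻} {I' : Ω → Subgroup 𝔻'} {U : Subgroup 𝔻} {C : ℕ}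
    (c : 𝔻 →* 𝔻') (hc : IsOpenMap c) (hcI : ∀ w, ∀ x, c x ∈ I' w → x ∈ I w)
    (hinj : Function.Injective c) (h : RankLe p I' (U.map c) C) : RankLe p I U C := by
  intro W hWK hWo hWf hg
  have hcm : (W.map c).comap c = W := comap_map_eq_self_of_injective hinj W
  have hidx := relIndex_comap (W.map c) c U
  rw [hcm] at hidx
  rw [hidx] at hWf ⊢
  refine h _ (Subgroup.map_mono hWK) ?_ hWf ?_
  · rw [Subgroup.coe_map]
    exact hc _ hWo
  · rintro y ((⟨_, ⟨a, ha, rfl⟩, rfl⟩ | ⟨_, ⟨a, ha, rfl⟩, _, ⟨b, hb, rfl⟩, rfl⟩) | ⟨⟨x, hx, rfl⟩, w, hw⟩)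
    · exact ⟨a ^ p, hg (Or.inl (Or.inl ⟨a, ha, rfl⟩)), map_pow _ _ _⟩
    · exact ⟨⁅a, b⁆, hg (Or.inl (Or.inr ⟨a, ha, b, hb, rfl⟩)), map_commutatorElement _ _ _⟩
    · exact ⟨x, hg (Or.inr ⟨hx, w, hcI w x hw⟩), rfl⟩

theorem rankLe_sub {𝔾 : Type} [Group 𝔾] [TopologicalSpace 𝔾] {p : ℕ} {Ω : Type} (I : Ω → Subgroup 𝔾)
    {H D : Subgroup 𝔾} (hH : IsOpen (H : Set 𝔾)) (C : ℕ) :
    RankLe p (fun w => (I w).subgroupOf D) (H.subgroupOf D) C ↔
      RankLe p (fun w => (I w).subgroupOf (H ⊓ D)) (⊤ : Subgroup ↥(H ⊓ D)) C := by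
  let c : ↥(H ⊓ D) →* D := Subgroup.inclusion inf_le_right
  have hinj : Function.Injective c := Subgroup.inclusion_injective _
  have hmap : (⊤ : Subgroup ↥(H ⊓ D)).map c = H.subgroupOf D := by
    ext x
    constructor
    · rintro ⟨y, -, rfl⟩
      exact y.2.1
    · intro hx
      exact ⟨⟨x, hx, x.2⟩, mem_top _, rfl⟩
  have hcont : Continuous c := Continuous.subtype_mk continuous_subtype_val _
  have hopen : IsOpenMap c := by
    intro V hV
    obtain ⟨V₀, hV₀, rfl⟩ := isOpen_induced_iff.1 hV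
    have h1 : c '' (Subtype.val ⁻¹' V₀) = Subtype.val ⁻¹' (V₀ ∩ (H : Set 𝔾)) := by
      ext x
      constructor
      · rintro ⟨y, hy, rfl⟩
        exact ⟨hy, y.2.1⟩
      · rintro ⟨h1, h2⟩
        exact ⟨⟨x, h2, x.2⟩, h1, rfl⟩
    rw [h1]
    exact (hV₀.inter hH).preimage continuous_subtype_val
  constructor
  · intro h
    rw [← hmap] at h
    exact RankLe_of_map c hopen (fun w x hx => hx) hinj h
  · intro h
    rw [← hmap]
    exact RankLe_map' h c hcont (fun w x hx => hx) hinj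

/-- The inertia group of `A`, replaced by the trivial group if `A` lies above a prime in `P`. -/
noncomputable def ram (P : Finset ℕ) (A : ValuationSubring Qb) : Subgroup Gal(Qb/ℚ) :=
  open Classical in if Above P A then ⊥ else inertia A

theorem mem_ram {P : Finset ℕ} {A : ValuationSubring Qb} {σ : Gal(Qb/ℚ)} :
    σ ∈ ram P A ↔ σ = 1 ∨ (¬ Above P A ∧ σ ∈ inertia A) := by
  by_cases h : Above P A
  · rw [ram, if_pos h, Subgroup.mem_bot]
    constructor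
    · exact Or.inl
    · rintro (hs | ⟨hs, -⟩)
      · exact hs
      · exact absurd h hs
  · rw [ram, if_neg h]
    constructor
    · intro hs
      exact Or.inr ⟨h, hs⟩
    · rintro (rfl | ⟨-, hs⟩)
      · exact Subgroup.one_mem _
      · exact hs

theorem ram_conj (P : Finset ℕ) (g : Gal(Qb/ℚ)) (A : ValuationSubring Qb) :
    ∀ σ ∈ ram P A, g * σ * g⁻¹ ∈ ram P (g • A) := by
  intro σ hσ
  rw [mem_ram] at hσ ⊢
  rcases hσ with rfl | ⟨h1, h2⟩
  · left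
    group
  · refine Or.inr ⟨fun h => h1 ?_, inertia_conj g A σ h2⟩
    have h3 := above_smul g⁻¹ h
    rwa [inv_smul_smul] at h3

theorem chars_eq (p : ℕ) (P : Finset ℕ) (E : IntermediateField ℚ Qb) :
    chars p P E = chr p fun A => (ram P A).subgroupOf E.fixingSubgroup := by
  ext χ
  constructor
  · rintro ⟨h1, h2, h3⟩
    refine ⟨h1, h2, fun A x hx => ?_⟩
    rcases mem_ram.1 hx with h4 | ⟨h4, h5⟩
    · have h5 : x = 1 := Subtype.ext h4
      have h6 := h1 1 1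
      rw [mul_one] at h6
      rw [h5]
      exact left_eq_add.1 h6
    · exact h3 A h4 x h5
  · rintro ⟨h1, h2, h3⟩
    exact ⟨h1, h2, fun A hA x hx => h3 A x (mem_ram.2 (Or.inr ⟨hA, hx⟩))⟩

theorem chars_iff {p : ℕ} (hp : p.Prime) (P : Finset ℕ) (F L : IntermediateField ℚ Qb) [FiniteDimensional ℚ F]
    (C : ℕ) : (chars p P (F ⊔ L)).encard ≤ C ↔
      RankLe p (fun A => (ram P A).subgroupOf L.fixingSubgroup) (F.fixingSubgroup.subgroupOf L.fixingSubgroup) C := by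
  have hpf : Fact p.Prime := ⟨hp⟩
  rw [rankLe_sub (ram P) F.fixingSubgroup_isOpen C]
  have key : ∀ (U V : Subgroup Gal(Qb/ℚ)), U = V →
      ((chr p fun A => (ram P A).subgroupOf U).encard ≤ C ↔
        RankLe p (fun A => (ram P A).subgroupOf V) (⊤ : Subgroup V) C) := by
    rintro U _ rfl
    exact ⟨rankLe_of_encard p, encard_le p⟩
  rw [chars_eq]
  exact key _ _ (fixingSubgroup_sup)

/-- **The inequality for dominated fields.** -/
theorem charBound_of_dominates {p : ℕ} (hp : p.Prime) (P : Finset ℕ)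
    (N : IntermediateField ℚ Qb) (hN : FiniteDimensional ℚ N) (hNn : IsGalois ℚ N)
    (F : IntermediateField ℚ Qb) (hF : F ≤ N)
    (𝓔 : Set (IntermediateField ℚ Qb)) (h𝓔 : ∀ E ∈ 𝓔, E ≤ N) (hdom : Dominates p N 𝓔 F) (t : ℕ) :
    ∃ B, ∀ L : IntermediateField ℚ Qb, IsGalois ℚ L →
      (∀ ℓ, ℓ.Prime → ℓ ∉ P → ¬ Unram ℓ N → Places t ℓ L) → CharBound p P 𝓔 F L B := by
  classical
  have hpf : Fact p.Prime := ⟨hp⟩
  have hKn : N.fixingSubgroup.Normal := (InfiniteGalois.normal_iff_isGalois N).2 hNn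
  have hKo := N.fixingSubgroup_isOpen
  have hKf := index_ne_zero' N
  obtain ⟨S, hS, hSA⟩ := finRam_inertia N hN
  let S' := S.filter fun ℓ => ℓ ∉ P ∧ ¬ Unram ℓ N
  refine ⟨dcst N.fixingSubgroup.index (S'.card * t) (finite_ge hKn hKf).toFinset.card, ?_⟩
  intro L hLg hpl C hC1 hC
  have hFf := fd_of_le hN hF
  have hpl' : ∀ ℓ ∈ S', Places t ℓ L := fun ℓ hℓ => by
    obtain ⟨h1, h2, h3⟩ := Finset.mem_filter.1 hℓ
    exact hpl ℓ (hS ℓ h1) h2 h3
  choose! T hTt hT using hpl'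
  rw [chars_iff hp]
  refine descentX (p := p) (I := ram P) (ram_conj P) (D := L.fixingSubgroup)
    ((InfiniteGalois.normal_iff_isGalois L).2 hLg)
    hKn hKo hKf (fixingSubgroup_le hF) (T := S'.biUnion T)
    (Finset.card_biUnion_le_card_mul _ _ _ fun ℓ hℓ => hTt ℓ hℓ)
    (fun A => ?_) (𝓓 := {L | ∃ E ∈ 𝓔, L = E.fixingSubgroup}) ?_ ?_ hC1 ?_
  · by_cases hA : ram P A ≤ N.fixingSubgroup
    · exact Or.inl (inf_le_left.trans hA)
    · right
      have hnA : ¬ Above P A := fun h => hA (by rw [ram, if_pos h]; exact bot_le)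
      have hI : ¬ inertia A ≤ N.fixingSubgroup := fun h => hA (by rw [ram, if_neg hnA]; exact h)
      rcases hSA A with h | ⟨ℓ, hℓ, hℓA⟩
      · exact absurd h hI
      · have hℓ' : ℓ ∈ S' := Finset.mem_filter.2 ⟨hℓ, fun hP => hnA ⟨ℓ, hP, hℓA⟩, fun hU => hI (hU A hℓA)⟩
        obtain ⟨B, hB, σ, hσ, h1⟩ := hT ℓ hℓ' A hℓA
        exact ⟨B, Finset.mem_biUnion.2 ⟨ℓ, hℓ', hB⟩, σ, hσ, h1⟩
  · rintro L ⟨E, hE, rfl⟩
    exact fixingSubgroup_le (h𝓔 E hE)
  · rintro Q _ _ _ τ hτ ⟨v, hv, h⟩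
    obtain ⟨E, hE, w, hw, h1⟩ := hdom Q τ hτ ⟨v, hv, fun g hg => h hg⟩
    exact ⟨E.fixingSubgroup, ⟨E, hE, rfl⟩, w, hw, fun g hg => h1 g hg⟩
  · rintro L' ⟨E, hE, rfl⟩
    have hEf := fd_of_le hN (h𝓔 E hE)
    rw [← chars_iff hp]
    exact hC E hE

theorem IsCyc.galois {p : ℕ} (hp : p.Prime) {L : IntermediateField ℚ Qb} (hL : IsCyc p L) : IsGalois ℚ L := by
  apply (InfiniteGalois.normal_iff_isGalois L).1
  refine ⟨fun f hf g => ?_⟩
  rw [IntermediateField.mem_fixingSubgroup_iff] at hf ⊢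
  intro x hx
  obtain ⟨n, hn⟩ := hL x hx
  show g (f (g⁻¹ x)) = x
  rw [cy_comm hp le_rfl hn f g⁻¹, hf x hx]
  show (g * g⁻¹) x = x
  rw [mul_inv_cancel]
  rfl

theorem IsCyc.places {p : ℕ} (hp : p.Prime) (ℓ : ℕ) (hℓ : ℓ.Prime) :
    ∃ t, ∀ L : IntermediateField ℚ Qb, IsCyc p L → Places t ℓ L := by
  obtain ⟨T, hT⟩ := fin_cinf hp ℓ hℓ
  refine ⟨T.card, fun L hL => ⟨T, le_rfl, fun A hA => ?_⟩⟩
  obtain ⟨B, hB, σ, hσ, h⟩ := hT A hA
  refine ⟨B, hB, σ, ?_, h⟩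
  rw [IntermediateField.mem_fixingSubgroup_iff]
  intro x hx
  obtain ⟨n, hn⟩ := hL x hx
  exact (IntermediateField.mem_fixingSubgroup_iff _ _).1 (hσ n) x hn

theorem Places.mono {s t ℓ : ℕ} {L : IntermediateField ℚ Qb} (h : Places s ℓ L) (hst : s ≤ t) : Places t ℓ L := by
  obtain ⟨T, hT, h⟩ := h
  exact ⟨T, hT.trans hst, h⟩

theorem cycBound_of_dominates {p : ℕ} (hp : p.Prime) (P : Finset ℕ)
    (N : IntermediateField ℚ Qb) (hN : FiniteDimensional ℚ N) (hNn : IsGalois ℚ N)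
    (F : IntermediateField ℚ Qb) (hF : F ≤ N)
    (𝓔 : Set (IntermediateField ℚ Qb)) (h𝓔 : ∀ E ∈ 𝓔, E ≤ N) (hdom : Dominates p N 𝓔 F) :
    CycBound p P 𝓔 F := by
  classical
  obtain ⟨S, hS, hSA⟩ := finRam_inertia N hN
  choose! t ht using fun ℓ (hℓ : ℓ.Prime) => IsCyc.places hp ℓ hℓ
  obtain ⟨B, hB⟩ := charBound_of_dominates hp P N hN hNn F hF 𝓔 h𝓔 hdom (S.sup t)
  refine ⟨B, fun L hL => hB L (hL.galois hp) fun ℓ hℓ hℓP hU => ?_⟩
  have hℓS : ℓ ∈ S := by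
    by_contra hno
    apply hU
    intro A hA
    rcases hSA A with h | ⟨ℓ', hℓ', hA'⟩
    · exact h
    · exfalso
      have hne : ℓ ≠ ℓ' := by
        rintro rfl
        exact hno hℓ'
      have hcop : Nat.Coprime ℓ ℓ' := (Nat.coprime_primes hℓ (hS ℓ' hℓ')).2 hne
      obtain ⟨u, v, huv⟩ := Nat.isCoprime_iff_coprime.2 hcop
      have h1 : ((u * ℓ + v * ℓ' : ℤ) : Qb) = 1 := by
        rw [huv, Int.cast_one]
      have hint : ∀ z : ℤ, (z : Qb) ∈ A := fun z => intCast_mem A z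
      have h2 : (1 : Qb) ∈ A.nonunits := by
        rw [← h1]
        push_cast
        have h3 : ∀ (z : ℤ) (y : Qb), y ∈ A.nonunits → (z : Qb) * y ∈ A.nonunits := by
          intro z y hy
          rw [ValuationSubring.mem_nonunits_iff] at hy ⊢
          rw [map_mul]
          exact mul_lt_one_of_nonneg_of_lt_one_right ((A.valuation_le_one_iff _).2 (hint z)) zero_le' hy
        have h4 := h3 u ℓ hA
        have h5 := h3 v ℓ' hA'
        rw [ValuationSubring.mem_nonunits_iff] at h4 h5 ⊢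
        exact (Valuation.map_add_lt _ h4 h5)
      rw [ValuationSubring.mem_nonunits_iff, map_one] at h2
      exact lt_irrefl _ h2
  exact (ht ℓ hℓ L hL).mono (Finset.le_sup hℓS)

theorem CycBound.finite {p : ℕ} {P : Finset ℕ} {𝓔 : Set (IntermediateField ℚ Qb)} (hfin : 𝓔.Finite)
    {F : IntermediateField ℚ Qb} (h : CycBound p P 𝓔 F) {L : IntermediateField ℚ Qb} (hL : IsCyc p L)
    (hE : ∀ E ∈ 𝓔, (chars p P (E ⊔ L)).Finite) : (chars p P (F ⊔ L)).Finite := by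
  classical
  obtain ⟨B, hB⟩ := h
  let c : IntermediateField ℚ Qb → ℕ := fun E => (chars p P (E ⊔ L)).ncard
  have h1 := hB L hL (hfin.toFinset.sup c + 1) (Nat.succ_pos _) fun E hE' => by
    rw [← (hE E hE').cast_ncard_eq]
    exact_mod_cast (Finset.le_sup (f := c) (hfin.mem_toFinset.2 hE')).trans (Nat.le_succ _)
  exact Set.finite_of_encard_le_coe h1

theorem cycBound_of_spanning {p : ℕ} (hp : p.Prime) (P : Finset ℕ)
    {f : ℚ[X]} (hf : Irreducible f) {𝓔 : Set (IntermediateField ℚ Qb)} (hfin : 𝓔.Finite)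
    (hE : ∀ E ∈ 𝓔, FiniteDimensional ℚ E) (hs : Spanning p 𝓔 f)
    {α : Qb} (hα : aeval α f = 0) : CycBound p P 𝓔 ℚ⟮α⟯ := by
  classical
  have hpf : Fact p.Prime := ⟨hp⟩
  have hint : IsIntegral ℚ α := (AlgebraicClosure.isAlgebraic ℚ).isIntegral.isIntegral α
  have hfdα : FiniteDimensional ℚ ℚ⟮α⟯ := adjoin.finiteDimensional hint
  have h1 : ∀ s : Finset (IntermediateField ℚ Qb), (∀ E ∈ s, FiniteDimensional ℚ E) →
      ∃ M : IntermediateField ℚ Qb, FiniteDimensional ℚ M ∧ ∀ E ∈ s, E ≤ M := by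
    intro s
    induction s using Finset.induction_on with
    | empty => exact fun _ => ⟨ℚ⟮α⟯, hfdα, by simp⟩
    | insert E s _ ih =>
      intro h
      obtain ⟨M, hM, hEM⟩ := ih fun E hE => h E (Finset.mem_insert_of_mem hE)
      have hEf := h E (Finset.mem_insert_self _ _)
      refine ⟨E ⊔ M, inferInstance, fun E' hE' => ?_⟩
      rcases Finset.mem_insert.1 hE' with rfl | hE'
      · exact le_sup_left
      · exact (hEM E' hE').trans le_sup_right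
  obtain ⟨M, hM, hEM⟩ := h1 hfin.toFinset fun E h => hE E (hfin.mem_toFinset.1 h)
  have hfd : FiniteDimensional ℚ ↥(M ⊔ ℚ⟮α⟯) := inferInstance
  obtain ⟨N, hN, hNf, hNg⟩ := exists_galois (M ⊔ ℚ⟮α⟯)
  exact cycBound_of_dominates hp P N hNf hNg _ (le_sup_right.trans hN) 𝓔
    (fun E hE' => (hEM E (hfin.mem_toFinset.2 hE')).trans (le_sup_left.trans hN))
    (hs.dominates hf (mem_rootSet.2 ⟨hf.ne_zero, hα⟩) N)

theorem cycBound_of_factor {p : ℕ} (hp : p.Prime) (P : Finset ℕ)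
    {f : ℚ[X]} (hf : Irreducible f) (h3 : 3 ≤ f.natDegree)
    (hfull : ContainsAlternating f) {E : IntermediateField ℚ Qb} (hE : FiniteDimensional ℚ E)
    (hred : ¬ Irreducible (f.map (algebraMap ℚ E)))
    {α : Qb} (hα : aeval α f = 0) : CycBound p P {E} ℚ⟮α⟯ := by
  have hpf : Fact p.Prime := ⟨hp⟩
  obtain ⟨a, b, hab, ha, hb⟩ : ∃ a b : E[X], f.map (algebraMap ℚ E) = a * b ∧ a.natDegree ≠ 0 ∧
      b.natDegree ≠ 0 := by
    have hm0 : f.map (algebraMap ℚ E) ≠ 0 :=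
      (Polynomial.map_ne_zero_iff (algebraMap ℚ E).injective).2 hf.ne_zero
    have hnu : ¬ IsUnit (f.map (algebraMap ℚ E)) := by
      intro h
      have h1 := natDegree_eq_zero_of_isUnit h
      rw [natDegree_map] at h1
      omega
    rw [irreducible_iff] at hred
    push Not at hred
    obtain ⟨a, b, hab, ha, hb⟩ := hred hnu
    have ha0 : a ≠ 0 := by
      rintro rfl
      rw [zero_mul] at hab
      exact hm0 hab
    have hb0 : b ≠ 0 := by
      rintro rfl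
      rw [mul_zero] at hab
      exact hm0 hab
    refine ⟨a, b, hab, fun h => ha ?_, fun h => hb ?_⟩
    · rw [Polynomial.isUnit_iff_degree_eq_zero, degree_eq_natDegree ha0, h]
      rfl
    · rw [Polynomial.isUnit_iff_degree_eq_zero, degree_eq_natDegree hb0, h]
      rfl
  exact cycBound_of_spanning hp P hf (Set.finite_singleton E) (by rintro E' rfl; exact hE)
    (spanning_of_factor hf h3 hfull hab ha hb) hα

end Pool.Agent.U463.XS
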