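import Pool.Agent.U463.MD.Quant

/-!
# The descent inequality inside a normal subgroup of infinite index
-/

set_option autoImplicit false

namespace Pool.Agent.U463.XS

open Subgroup Module Pool.Agent.Q60.MU Pool.Agent.U463.MD

variable {𝔾 : Type} [Group 𝔾]

section rep

variable {k : Type} [Field k] {K D H : Subgroup 𝔾}
  {S : Type} [AddCommGroup S] [Module k S] (σ : Representation k D S)

theorem Y_finiteK [Module.Finite k S] (hK : K.Normal) (hKf : K.index ≠ 0) :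
    Module.Finite k (Y σ K) := by
  classical
  have hfi : K.FiniteIndex := ⟨hKf⟩
  have hfin : Finite (𝔾 ⧸ K) := inferInstance
  let Φ : Y σ K →ₗ[k] (𝔾 ⧸ K → (S →ₗ[k] k)) :=
    { toFun := fun φ q => φ.1 (Quotient.out q)
      map_add' := fun φ ψ => rfl
      map_smul' := fun c φ => rfl }
  have hinj : Function.Injective Φ := by
    intro φ ψ h
    apply Subtype.ext
    funext x
    have h1 : φ.1 (Quotient.out (QuotientGroup.mk x : 𝔾 ⧸ K)) =
        ψ.1 (Quotient.out (QuotientGroup.mk x : 𝔾 ⧸ K)) := congrFun h (QuotientGroup.mk x)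
    obtain ⟨κ, hκ⟩ := QuotientGroup.mk_out_eq_mul K x
    have h2 : Quotient.out (QuotientGroup.mk x : 𝔾 ⧸ K) = (x * κ * x⁻¹) * x := by
      rw [inv_mul_cancel_right]
      exact hκ
    rw [h2, φ.2.2 _ (hK.conj_mem κ κ.2 x) x, ψ.2.2 _ (hK.conj_mem κ κ.2 x) x] at h1
    exact h1
  exact Module.Finite.of_injective Φ hinj

/-- Detection by fixed vectors in modules of the big group. -/
theorem exists_vectorK {K D H : Subgroup 𝔾}
    {S : Type} [AddCommGroup S] [Module k S] (σ : Representation k D S)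
    [Module.Finite k S] (hK : K.Normal) (hKf : K.index ≠ 0) (hKH : K ≤ H)
    (hco : coinv σ (H.subgroupOf D) ≠ ⊤) (Pr : Subgroup 𝔾 → Prop)
    (hPr : ∀ (Q : Type) [AddCommGroup Q] [Module k Q] [Module.Finite k Q]
      (τ : Representation k 𝔾 Q), (∀ g ∈ K, ∀ x, τ g x = x) →
      (∃ v : Q, v ≠ 0 ∧ H ≤ stab τ v) → ∃ L, Pr L ∧ ∃ v : Q, v ≠ 0 ∧ L ≤ stab τ v) :
    ∃ (L : Subgroup 𝔾) (g : 𝔾), Pr L ∧
      coinv σ ((L.map (MulAut.conj g).toMonoidHom).subgroupOf D) ≠ ⊤ := by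
  classical
  obtain ⟨f₀, hf₀, hf⟩ : ∃ f : S →ₗ[k] k, f ≠ 0 ∧ ∀ x ∈ coinv σ (H.subgroupOf D), f x = 0 := by
    obtain ⟨x, hx⟩ : ∃ x, x ∉ coinv σ (H.subgroupOf D) := by
      by_contra hcon
      push Not at hcon
      exact hco (eq_top_iff.2 fun x _ => hcon x)
    obtain ⟨f, hf1, hf2⟩ := Submodule.exists_le_ker_of_notMem hx
    exact ⟨f, fun h => hf1 (by rw [h]; rfl), fun y hy => hf2 hy⟩
  obtain ⟨φ, hφ1, hφH⟩ := Y_existsH (K := K) σ hK hKH f₀ (by
    intro d hd x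
    have h1 := hf (σ d x - x) (Submodule.subset_span ⟨d, hd, x, rfl⟩)
    rwa [map_sub, sub_eq_zero] at h1)
  have hfin : Module.Finite k (Y σ K) := Y_finiteK σ hK hKf
  have hφ0 : φ ≠ 0 := by
    rintro rfl
    exact hf₀ hφ1.symm
  obtain ⟨L, hL, ψ, hψ0, hP⟩ := hPr (Y σ K) (τY σ K) (by
    intro κ hκ x
    apply Subtype.ext
    funext y
    rw [τY_apply]
    have h1 : y * κ = (y * κ * y⁻¹) * y := by group
    rw [h1]
    exact x.2.2 _ (hK.conj_mem κ hκ y) y) ⟨φ, hφ0, show H ≤ stab (τY σ K) φ from fun h hh => hφH h hh⟩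
  obtain ⟨g, hg⟩ : ∃ g, ψ.1 g ≠ 0 := by
    by_contra h
    push Not at h
    exact hψ0 (Subtype.ext (funext h))
  refine ⟨L, g, hL, fun htop => ?_⟩
  apply hg
  have h1 : coinv σ ((L.map (MulAut.conj g).toMonoidHom).subgroupOf D) ≤ LinearMap.ker (ψ.1 g) := by
    rw [coinv, Submodule.span_le]
    rintro _ ⟨d, ⟨x, hx, hxd⟩, v, rfl⟩
    have h4 : (d : 𝔾) = g * x * g⁻¹ := hxd.symm
    have h3 : ψ.1 (g * x) = ψ.1 g := by
      have h5 : τY σ K x ψ = ψ := hP hx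
      have h6 := congrArg (fun φ : Y σ K => φ.1 g) h5
      exact h6
    have h5 : ψ.1 (d * g) = (ψ.1 g) ∘ₗ σ d⁻¹ := ψ.2.1 d g
    have h6 : (d : 𝔾) * g = g * x := by rw [h4]; group
    rw [h6, h3] at h5
    have h7 := LinearMap.congr_fun h5 (σ d v)
    rw [LinearMap.comp_apply, ← Module.End.mul_apply, ← map_mul, inv_mul_cancel, map_one] at h7
    rw [SetLike.mem_coe, LinearMap.mem_ker, map_sub, sub_eq_zero]
    exact h7
  rw [htop, top_le_iff, LinearMap.ker_eq_top] at h1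
  exact h1

end rep

/-- Transport of the rank condition by an automorphism. -/
theorem RankLe_map {𝔻 : Type} [Group 𝔻] [TopologicalSpace 𝔻] {p : ℕ} {Ω : Type}
    {I : Ω → Subgroup 𝔻} {U U' : Subgroup 𝔻} {C : ℕ} (h : RankLe p I U C) (c : 𝔻 →* 𝔻)
    (hc : Continuous c) (ψ : Ω → Ω) (hcI : ∀ w, ∀ x ∈ I w, c x ∈ I (ψ w)) (hinj : Function.Injective c)
    (hU : U.map c = U') : RankLe p I U' C := by
  subst hU
  intro W hWK hWo hWf hg
  have hidx := relIndex_comap W c U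
  rw [← hidx] at hWf ⊢
  refine h _ ?_ ?_ hWf ?_
  · intro x hx
    obtain ⟨y, hy, hyx⟩ := hWK hx
    rw [← hinj hyx]
    exact hy
  · exact hWo.preimage hc
  · rintro y ((⟨a, ha, rfl⟩ | ⟨a, ha, b, hb, rfl⟩) | ⟨hx, w, hw⟩)
    · exact hg (Or.inl (Or.inl ⟨_, ⟨a, ha, rfl⟩, map_pow _ _ _⟩))
    · exact hg (Or.inl (Or.inr ⟨_, ⟨a, ha, rfl⟩, _, ⟨b, hb, rfl⟩, map_commutatorElement _ _ _⟩))
    · exact hg (Or.inr ⟨⟨y, hx, rfl⟩, ψ w, hcI w y hw⟩)

/-- **The descent inequality in a normal subgroup `D`.** -/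
theorem descentX [TopologicalSpace 𝔾] [IsTopologicalGroup 𝔾] {p : ℕ} [Fact p.Prime] {Ω : Type}
    [MulAction 𝔾 Ω] {I : Ω → Subgroup 𝔾}
    (hI : ∀ (g : 𝔾) (w : Ω), ∀ x ∈ I w, g * x * g⁻¹ ∈ I (g • w))
    {D : Subgroup 𝔾} (hDn : D.Normal) {K H : Subgroup 𝔾} (hKn : K.Normal)
    (hKo : IsOpen (K : Set 𝔾)) (hKf : K.index ≠ 0) (hKH : K ≤ H) {t : ℕ}
    {T : Finset Ω} (hTt : T.card ≤ t)
    (hT : ∀ w, I w ⊓ D ≤ K ∨ ∃ u ∈ T, ∃ d ∈ D, w = d • u)
    {𝓓 : Set (Subgroup 𝔾)} (h𝓓 : ∀ L ∈ 𝓓, K ≤ L)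
    (hvec : ∀ (S : Type) [AddCommGroup S] [Module (ZMod p) S] [Module.Finite (ZMod p) S]
      (τ : Representation (ZMod p) 𝔾 S), (∀ g ∈ K, ∀ x, τ g x = x) →
      (∃ v : S, v ≠ 0 ∧ H ≤ stab τ v) →
      ∃ L ∈ 𝓓, ∃ v : S, v ≠ 0 ∧ L ≤ stab τ v)
    {C : ℕ} (hC1 : 1 ≤ C)
    (hC : ∀ L ∈ 𝓓, RankLe p (fun w => (I w).subgroupOf D) (L.subgroupOf D) C) :
    RankLe p (fun w => (I w).subgroupOf D) (H.subgroupOf D)
      (dcst K.index t (finite_ge hKn hKf).toFinset.card *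
      C ^ dcst K.index t (finite_ge hKn hKf).toFinset.card) := by
  classical
  set I' : Ω → Subgroup D := fun w => (I w).subgroupOf D with hI'
  have hI'c : ∀ (g : D) (w : Ω), ∀ x ∈ I' w, g * x * g⁻¹ ∈ I' (g • w) := by
    intro g w x hx
    exact hI g w x hx
  have hfin : {L : Subgroup 𝔾 | K ≤ L ∧ RankLe p I' (L.subgroupOf D) C}.Finite :=
    (finite_ge hKn hKf).subset fun L hL => hL.1
  set 𝓛 := hfin.toFinset with h𝓛
  have hmem : ∀ L, L ∈ 𝓛 ↔ K ≤ L ∧ RankLe p I' (L.subgroupOf D) C := fun L => by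
    rw [h𝓛, Set.Finite.mem_toFinset]
    rfl
  have hcard : 𝓛.card ≤ (finite_ge hKn hKf).toFinset.card := by
    apply Finset.card_le_card
    intro L hL
    rw [Set.Finite.mem_toFinset]
    exact ((hmem L).1 hL).1
  have h2 : K.relIndex D ∣ K.index := relIndex_dvd_index_of_normal K _
  have h3 : K.relIndex D ≠ 0 := by
    intro h
    rw [h] at h2
    exact hKf (Nat.eq_zero_of_zero_dvd h2)
  have h4 : K.relIndex D ≤ K.index := Nat.le_of_dvd (Nat.pos_of_ne_zero hKf) h2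
  -- conjugation of the subgroups
  have hconj : ∀ (L : Subgroup 𝔾) (g : 𝔾), L ∈ 𝓛 → L.map (MulAut.conj g).toMonoidHom ∈ 𝓛 := by
    intro L g hL
    rw [hmem] at hL ⊢
    refine ⟨fun x hx => ?_, ?_⟩
    · refine ⟨g⁻¹ * x * g⁻¹⁻¹, hL.1 (hKn.conj_mem x hx g⁻¹), ?_⟩
      show g * (g⁻¹ * x * g⁻¹⁻¹) * g⁻¹ = x
      group
    · refine RankLe_map hL.2 (MulAut.conjNormal g : MulAut D).toMonoidHom ?_ (fun w => g • w) ?_
        (MulAut.conjNormal g : MulAut D).injective ?_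
      · refine Continuous.subtype_mk (f := fun x : D => g * (x : 𝔾) * g⁻¹) ?_ _
        exact (continuous_const.mul continuous_subtype_val).mul continuous_const
      · intro w x hx
        exact hI g w x hx
      · ext x
        constructor
        · rintro ⟨y, hy, rfl⟩
          exact ⟨y, hy, rfl⟩
        · rintro ⟨y, hy, hyx⟩
          have h5 : g * y * g⁻¹ = x := hyx
          have hyD : y ∈ D := by
            have h6 : y = g⁻¹ * x * g⁻¹⁻¹ := by
              rw [← h5]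
              group
            rw [h6]
            exact hDn.conj_mem x x.2 g⁻¹
          exact ⟨⟨y, hyD⟩, hy, Subtype.ext h5⟩
  have hdet : DetectsH (ZMod p) ((K.subgroupOf D).subgroupOf ⊤) ((H.subgroupOf D).subgroupOf ⊤)
      (𝓛.image fun L => L.subgroupOf D) (fun L => L.subgroupOf ⊤) := by
    intro S _ _ _ σ₁ htriv hco
    let e : D →* (⊤ : Subgroup D) := (Subgroup.topEquiv (G := D)).symm.toMonoidHom
    let σ : Representation (ZMod p) D S := σ₁.comp e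
    have hcoe : ∀ Q : Subgroup D, coinv σ₁ (Q.subgroupOf ⊤) = coinv σ Q := by
      intro Q
      unfold coinv
      congr 1
      ext x
      constructor
      · rintro ⟨h, hh, v, rfl⟩
        exact ⟨h.1, hh, v, rfl⟩
      · rintro ⟨h, hh, v, rfl⟩
        exact ⟨e h, hh, v, rfl⟩
    rw [hcoe] at hco
    obtain ⟨L, g, hL, hqc⟩ := exists_vectorK σ hKn hKf hKH hco
      (fun L => L ∈ 𝓛) (fun Q _ _ _ τ hτ hs => by
        obtain ⟨L, hL, hv⟩ := hvec Q τ hτ hs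
        exact ⟨L, (hmem L).2 ⟨h𝓓 L hL, hC L hL⟩, hv⟩)
    refine ⟨(L.map (MulAut.conj g).toMonoidHom).subgroupOf D,
      Finset.mem_image.2 ⟨_, hconj L g hL, rfl⟩, ?_⟩
    rw [hcoe]
    exact hqc
  have hKmo : IsOpen ((K.subgroupOf D : Subgroup D) : Set D) := hKo.preimage continuous_subtype_val
  have hnorm : (K.subgroupOf D).Normal := hKn.subgroupOf D
  have h5 := main_ineqH (p := p) hI'c (K := K.subgroupOf D) (H := H.subgroupOf D) (D := ⊤) le_top
    (fun d _ x hx => hnorm.conj_mem x hx d) hKmo (fun x hx => hKH hx) le_top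
    (n := K.index) (t := t)
    (by rw [relIndex_top_right]; exact h3) (by rw [relIndex_top_right]; exact h4)
    (𝓛.image fun L => L.subgroupOf D) (by
      intro L hL
      obtain ⟨M, hM, rfl⟩ := Finset.mem_image.1 hL
      exact ⟨fun x hx => ((hmem M).1 hM).1 hx, le_top⟩) hdet T hTt
    (fun w => (hT w).imp (fun h x hx => h ⟨hx.1, x.2⟩)
      (fun ⟨u, hu, d, hd, h⟩ => ⟨u, hu, ⟨d, hd⟩, mem_top _, h⟩)) (C := C) (by
      intro L hL
      obtain ⟨M, hM, rfl⟩ := Finset.mem_image.1 hL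
      exact ((hmem M).1 hM).2)
  exact h5.mono (bound_le hC1 (Finset.card_image_le.trans hcard))

end Pool.Agent.U463.XS
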